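import Pool.Agent.Y920.ETC.Stm

/-!
# Rigid elements: the exceptional cases disappear after enlarging `H` by index two
-/

set_option autoImplicit false

namespace Pool.Agent.Y925.ET

open Pool.Agent.Y920.ETC

variable {F : Type} [Field F] {T H : Subgroup Fˣ}

private lemma ne0 (h : RigidPair T H) {x : Fˣ} (hx : x ∉ H) : (1 : F) + x ≠ 0 := by
  intro h0
  apply hx
  have h1 : x = -1 := by
    apply Units.ext
    rw [Units.val_neg, Units.val_one]
    linear_combination h0
  rw [h1]
  exact h.neg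

private lemma neg_notMem (h : RigidPair T H) {x : Fˣ} (hx : x ∉ H) : -x ∉ H := by
  intro h1
  apply hx
  have h2 := H.mul_mem h.neg h1
  rwa [neg_mul_neg, one_mul] at h2

private lemma mulT (h : RigidPair T H) {x t : Fˣ} (hx : x ∉ H) (ht : t ∈ T) : x * t ∉ H :=
  fun h1 => hx ((H.mul_mem_cancel_right (h.le ht)).mp h1)

private lemma sqH (h : RigidPair T H) (x : Fˣ) : x * x ∈ H := h.le (h.sq x)

/-- `1 + x ∈ T` excludes `1 + x ∈ x T` -/
private lemma excl (h : RigidPair T H) {x t t' : Fˣ} (hx : x ∉ H) (ht : t ∈ T) (ht' : t' ∈ T)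
    (h1 : (t : F) = 1 + x) (h2 : ((x * t' : Fˣ) : F) = 1 + x) : False := by
  apply hx
  apply h.le
  have h3 : t = x * t' := Units.ext (by rw [h1, h2])
  rw [h3] at ht
  exact (T.mul_mem_cancel_right ht').mp ht

private lemma inv_notMem {x : Fˣ} (hx : x ∉ H) : x⁻¹ ∉ H := fun h => hx (H.inv_mem_iff.mp h)

/-- one of `x`, `x⁻¹` is small -/
private lemma sm_inv (h : RigidPair T H) {x : Fˣ} (hx : x ∉ H) (hs : ¬ Sm T H x) :
    Sm T H x⁻¹ := by
  refine ⟨inv_notMem hx, ?_⟩
  rcases h.rigid x hx with h1 | ⟨t, ht, h1⟩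
  · exact absurd ⟨hx, h1⟩ hs
  · refine ⟨t, ht, ?_⟩
    rw [Units.val_mul] at h1
    rw [Units.val_inv_eq_inv_val]
    field_simp
    linear_combination h1

private lemma not_sm_inv (h : RigidPair T H) {x : Fˣ} (hx : Sm T H x) : ¬ Sm T H x⁻¹ := by
  rintro ⟨-, t', ht', h1⟩
  obtain ⟨hx', t, ht, h2⟩ := hx
  refine excl h hx' ht ht' h2 ?_
  rw [Units.val_mul, h1, Units.val_inv_eq_inv_val, mul_add, mul_inv_cancel₀ x.ne_zero]
  ring

/-- Lemma 1 -/
private lemma L1 (h : RigidPair T H) {x y c : Fˣ} (hx : Sm T H x) (hy : Sm T H y)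
    (hxy : x * y ∉ H) (hc : (c : F) = 1 + y) : Sm T H (x * c) ∧ Sm T H (x * y) := by
  obtain ⟨hx1, d, hd, hdx⟩ := hx
  obtain ⟨hy1, c', hc', hcy⟩ := hy
  have hcc : c' = c := Units.ext (by rw [hcy, hc])
  rw [hcc] at hc'
  have hxc : x * c ∉ H := mulT h hx1 hc'
  -- `s = 1 + x c = (1 + x) (1 + x y / (1 + x))`
  have hq : x * y * d⁻¹ ∉ H := mulT h hxy (T.inv_mem hd)
  have hs2 : (1 : F) + (x * c : Fˣ) = d * (1 + (x * y * d⁻¹ : Fˣ)) := by
    push_cast
    rw [hc, mul_add, mul_one]
    have hd0 : (d : F) ≠ 0 := d.ne_zero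
    field_simp
    rw [hdx]
    ring
  have hsT : ∃ t ∈ T, (t : F) = 1 + (x * c : Fˣ) := by
    rcases h.rigid _ hxc with h1 | ⟨t, ht, h1⟩
    · exact h1
    · rcases h.rigid _ hq with ⟨t', ht', h2⟩ | ⟨t', ht', h2⟩
      · refine ⟨d * t', T.mul_mem hd ht', ?_⟩
        rw [hs2, ← h2, Units.val_mul]
      · -- `s ∈ x T ∩ x y T`
        exfalso
        apply hy1
        apply h.le
        have h3 : x * c * t = d * (x * y * d⁻¹ * t') := by
          apply Units.ext
          rw [h1, hs2, ← h2, ← Units.val_mul]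
        have h4 : y = c * t * t'⁻¹ := by
          have h5 : d * (x * y * d⁻¹ * t') = x * (y * t') := by
            apply Units.ext
            push_cast
            have hd0 : (d : F) ≠ 0 := d.ne_zero
            field_simp
          rw [h5, mul_assoc] at h3
          have h6 := mul_left_cancel h3
          rw [h6, mul_inv_cancel_right]
        rw [h4]
        exact T.mul_mem (T.mul_mem hc' ht) (T.inv_mem ht')
  refine ⟨⟨hxc, hsT⟩, hxy, ?_⟩
  rcases h.rigid _ hxy with h1 | ⟨t, ht, h1⟩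
  · exact h1
  · exfalso
    obtain ⟨s, hs, hs1⟩ := hsT
    have hyt : y * t ∉ H := mulT h hy1 ht
    have h2 : (s : F) = x * (1 + (y * t : Fˣ)) := by
      rw [hs1]
      push_cast at h1 ⊢
      rw [hc]
      linear_combination -h1
    rcases h.rigid _ hyt with ⟨t', ht', h3⟩ | ⟨t', ht', h3⟩
    · apply hx1
      apply h.le
      have h4 : s = x * t' := Units.ext (by rw [h2, ← h3, Units.val_mul])
      rw [h4] at hs
      exact (T.mul_mem_cancel_right ht').mp hs
    · apply hxy
      apply h.le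
      have h4 : s = x * y * (t * t') := by
        apply Units.ext
        rw [h2, ← h3]
        push_cast
        ring
      rw [h4] at hs
      exact (T.mul_mem_cancel_right (T.mul_mem ht ht')).mp hs

private lemma L1a (h : RigidPair T H) {x y : Fˣ} (hx : Sm T H x) (hy : Sm T H y)
    (hxy : x * y ∉ H) : Sm T H (x * y) :=
  (L1 (c := Units.mk0 (1 + (y : F)) (ne0 h hy.1)) h hx hy hxy rfl).2

private lemma L1b (h : RigidPair T H) {x y c : Fˣ} (hx : Sm T H x) (hy : Sm T H y)
    (hxy : x * y ∉ H) (hc : (c : F) = 1 + y) : Sm T H (x * c) :=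
  (L1 h hx hy hxy hc).1

/-- `P` gives that `-y` is small for small `y` -/
private lemma neg_sm (h : RigidPair T H)
    (hP : ∀ x y z : Fˣ, Sm T H x → Sm T H y → x * y ∈ H → Sm T H z → Sm T H (x * y * z))
    {y : Fˣ} (hy : Sm T H y) : Sm T H (-y) := by
  by_contra hn
  have h1 : -y ∉ H := neg_notMem h hy.1
  have h2 := sm_inv h h1 hn
  have h3 : y * (-y)⁻¹ = -1 := by
    apply Units.ext
    push_cast
    have := y.ne_zero
    field_simp
  have h4 := hP y (-y)⁻¹ y hy h2 (by rw [h3]; exact h.neg) hy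
  rw [h3, neg_one_mul] at h4
  exact hn h4

/-- the fact on `1 + x = a b` -/
private lemma fact (h : RigidPair T H) {x a b : Fˣ} (hx : x ∉ H) (ha : a ∉ H)
    (h1 : (1 : F) + x = a * b) (hna : Sm T H (-a)) (hnb : Sm T H (-b)) :
    ∃ t ∈ T, -x = a * t := by
  obtain ⟨-, u, hu, hu1⟩ := hna
  obtain ⟨-, v, hv, hv1⟩ := hnb
  rw [Units.val_neg] at hu1 hv1
  have hq : a * (v * u⁻¹) ∉ H := mulT h ha (T.mul_mem hv (T.inv_mem hu))
  have hu0 : (u : F) ≠ 0 := u.ne_zero
  have h2 : ((-x : Fˣ) : F) = u * (1 + (a * (v * u⁻¹) : Fˣ)) := by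
    push_cast
    rw [mul_add, mul_one]
    field_simp
    rw [hu1, hv1]
    linear_combination -h1
  rcases h.rigid _ hq with ⟨t, ht, h3⟩ | ⟨t, ht, h3⟩
  · exfalso
    apply neg_notMem h hx
    apply h.le
    have h4 : -x = u * t := Units.ext (by rw [h2, ← h3, Units.val_mul])
    rw [h4]
    exact T.mul_mem hu ht
  · refine ⟨v * t, T.mul_mem hv ht, ?_⟩
    apply Units.ext
    rw [h2, ← h3]
    push_cast
    field_simp

/-- the property `U` -/
private def U (T H : Subgroup Fˣ) (z : Fˣ) : Prop :=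
  z ∉ H ∧ ∀ w : Fˣ, w ∉ H → w * z ∉ H → (Sm T H w ↔ Sm T H (z * w))

private lemma U_of (h : RigidPair T H) {z : Fˣ} (hz : Sm T H z)
    (h1 : ∀ w : Fˣ, w ∉ H → w * z ∉ H → Sm T H (z * w) → Sm T H w) : U T H z := by
  refine ⟨hz.1, fun w hw hwz => ⟨fun hs => ?_, h1 w hw hwz⟩⟩
  exact L1a h hz hs (by rwa [mul_comm])

/-- transfer of non-membership along an equality modulo elements of `H` -/
private lemma nm {x y k : Fˣ} (hx : x ∉ H) (hk : k ∈ H) (e : x = y * k) : y ∉ H := by
  intro hy
  apply hx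
  rw [e]
  exact H.mul_mem hy hk

private lemma U_of_P (h : RigidPair T H) {x y z : Fˣ} (hx : Sm T H x) (hy : Sm T H y)
    (hxy : x * y ∈ H) (hz : Sm T H z) (hn : ¬ Sm T H (x * y * z)) : U T H z := by
  have hnm : x * y * z ∉ H := fun h1 => hz.1 ((H.mul_mem_cancel_left hxy).mp h1)
  have hr := sm_inv h hnm hn
  refine U_of h hz (fun w hw hwz hs => ?_)
  by_cases hc : w * z * x ∈ H
  · have hwx : w * x ∉ H := by
      intro h1
      apply hz.1
      have : z = (w * z * x) * (w * x)⁻¹ := by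
        apply Units.ext
        push_cast
        field_simp
      rw [this]
      exact H.mul_mem hc (H.inv_mem h1)
    have h1 : Sm T H (z * w * (x * y * z)⁻¹) := by
      apply L1a h hs hr
      refine nm hw hxy ?_
      apply Units.ext
      push_cast
      field_simp
    have h2 : Sm T H (z * w * (x * y * z)⁻¹ * x) := by
      apply L1a h h1 hx
      refine nm hwx hxy ?_
      apply Units.ext
      push_cast
      field_simp
    have h3 : z * w * (x * y * z)⁻¹ * x * y = w := by
      apply Units.ext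
      push_cast
      field_simp
    have h4 := L1a h h2 hy (by rw [h3]; exact hw)
    rwa [h3] at h4
  · have h1 : Sm T H (z * w * x) := by
      apply L1a h hs hx
      rwa [mul_comm z w]
    have h2 : Sm T H (z * w * x * y) := by
      apply L1a h h1 hy
      refine nm hwz (H.inv_mem hxy) ?_
      apply Units.ext
      push_cast
      field_simp
    have h3 : z * w * x * y * (x * y * z)⁻¹ = w := by
      apply Units.ext
      push_cast
      field_simp
    have h4 := L1a h h2 hr (by rw [h3]; exact hw)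
    rwa [h3] at h4

private lemma U_of_C (h : RigidPair T H) {a x c : Fˣ} (ha : Sm T H a) (hx : Sm T H x)
    (hc : (c : F) = 1 + x) (hn : ¬ Sm T H (a * c)) : U T H a := by
  have hax : a * x ∈ H := by
    by_contra h1
    exact hn (L1b h ha hx h1 hc)
  obtain ⟨-, c', hc', hcx⟩ := id hx
  have hcc : c' = c := Units.ext (by rw [hcx, hc])
  rw [hcc] at hc'
  have hac : a * c ∉ H := mulT h ha.1 hc'
  have hr := sm_inv h hac hn
  refine U_of h ha (fun w hw hwa hs => ?_)
  have hw' : w * c⁻¹ ∉ H := mulT h hw (T.inv_mem hc')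
  have e1 : a * w * (a * c)⁻¹ = w * c⁻¹ := by
    apply Units.ext
    push_cast
    field_simp
  have h1 : Sm T H (w * c⁻¹) := by
    have := L1a h hs hr (by rw [e1]; exact hw')
    rwa [e1] at this
  have h2 : w * c⁻¹ * x ∉ H := by
    refine nm (k := (a * x) * (x * x)⁻¹ * c) hwa
      (H.mul_mem (H.mul_mem hax (H.inv_mem (sqH h x))) (h.le hc')) ?_
    apply Units.ext
    push_cast
    field_simp
  have h3 := L1b h h1 hx h2 hc
  rwa [inv_mul_cancel_right] at h3

private lemma U_of_D (h : RigidPair T H)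
    (hP : ∀ x y z : Fˣ, Sm T H x → Sm T H y → x * y ∈ H → Sm T H z → Sm T H (x * y * z))
    {x a b : Fˣ} (hx : Sm T H x) (ha : Sm T H a) (hb : Sm T H b)
    (h1 : (1 : F) + x = a * b) : U T H a := by
  refine U_of h ha (fun w hw hwa hs => ?_)
  by_contra hn
  have hy := sm_inv h hw hn
  obtain ⟨-, t, ht, htx⟩ := id hx
  have htab : t = a * b := Units.ext (by rw [htx, h1, Units.val_mul])
  -- `s = (a w) b`
  have hsH : a * w * b ∉ H := by
    have : a * w * b = w * t := by rw [htab]; exact by rw [mul_comm a w, mul_assoc]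
    rw [this]
    exact mulT h hw ht
  have hs' := L1a h hs hb hsH
  have h2 : (1 : F) + x = (w⁻¹ : Fˣ) * (a * w * b : Fˣ) := by
    rw [h1]
    push_cast
    field_simp
  obtain ⟨t1, ht1, h3⟩ := fact h hx.1 hy.1 h2 (neg_sm h hP hy) (neg_sm h hP hs')
  obtain ⟨t2, ht2, h4⟩ := fact h hx.1 ha.1 h1 (neg_sm h hP ha) (neg_sm h hP hb)
  apply hwa
  apply h.le
  have h5 : w * a = t1 * t2⁻¹ := by
    rw [h3] at h4
    have : a = w⁻¹ * t1 * t2⁻¹ := by rw [h4, mul_inv_cancel_right]
    rw [this]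
    apply Units.ext
    push_cast
    field_simp
  rw [h5]
  exact T.mul_mem ht1 (T.inv_mem ht2)

/-- the enlarged subgroup -/
private def enl (h : RigidPair T H) (z : Fˣ) : Subgroup Fˣ where
  carrier := {y | y ∈ H ∨ y * z ∈ H}
  one_mem' := Or.inl H.one_mem
  mul_mem' := by
    rintro a b (ha | ha) (hb | hb)
    · exact Or.inl (H.mul_mem ha hb)
    · right
      rw [mul_assoc]
      exact H.mul_mem ha hb
    · right
      have : a * b * z = (a * z) * b := by rw [mul_right_comm]
      rw [this]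
      exact H.mul_mem ha hb
    · left
      have : a * b = (a * z) * (b * z) * (z * z)⁻¹ := by
        apply Units.ext
        push_cast
        field_simp
      rw [this]
      exact H.mul_mem (H.mul_mem ha hb) (H.inv_mem (sqH h z))
  inv_mem' := by
    rintro a (ha | ha)
    · exact Or.inl (H.inv_mem ha)
    · right
      have : a⁻¹ * z = (a * z)⁻¹ * (z * z) := by
        apply Units.ext
        push_cast
        field_simp
      rw [this]
      exact H.mul_mem (H.inv_mem ha) (sqH h z)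

private lemma mem_enl (h : RigidPair T H) (z y : Fˣ) : y ∈ enl h z ↔ (y ∈ H ∨ y * z ∈ H) :=
  Iff.rfl

theorem t_WA : S_WA := by
  intro F _ T H h
  by_cases hall : PCD T H
  · exact ⟨1, H, fun y => by simp, h, hall⟩
  obtain ⟨z, hU⟩ : ∃ z : Fˣ, U T H z := by
    by_cases hP : ∀ x y z : Fˣ, Sm T H x → Sm T H y → x * y ∈ H → Sm T H z →
        Sm T H (x * y * z)
    · by_cases hC : ∀ a x c : Fˣ, Sm T H a → Sm T H x → (c : F) = 1 + x → Sm T H (a * c)
      · have hD : ¬ ∀ x a b : Fˣ, Sm T H x → Sm T H a → Sm T H b → (1 : F) + x ≠ a * b :=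
          fun hD => hall ⟨hP, hC, hD⟩
        push Not at hD
        obtain ⟨x, a, b, hx, ha, hb, h1⟩ := hD
        exact ⟨a, U_of_D h hP hx ha hb h1⟩
      · push Not at hC
        obtain ⟨a, x, c, ha, hx, hc, hn⟩ := hC
        exact ⟨a, U_of_C h ha hx hc hn⟩
    · push Not at hP
      obtain ⟨x, y, z, hx, hy, hxy, hz, hn⟩ := hP
      exact ⟨z, U_of_P h hx hy hxy hz hn⟩
  obtain ⟨hzH, hU⟩ := hU
  have hle : H ≤ enl h z := fun y hy => Or.inl hy
  have hout : ∀ {y : Fˣ}, y ∉ enl h z → y ∉ H ∧ y * z ∉ H := by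
    intro y hy
    rw [mem_enl] at hy
    push Not at hy
    exact hy
  have hR : RigidPair T (enl h z) :=
    ⟨h.sq, h.le.trans hle, hle h.neg, fun x hx => h.rigid x (hout hx).1⟩
  -- small elements
  have hsm : ∀ {y : Fˣ}, Sm T (enl h z) y → Sm T H y := fun hy => ⟨(hout hy.1).1, hy.2⟩
  have hms : ∀ {y : Fˣ}, y ∉ enl h z → Sm T H y → Sm T (enl h z) y := fun hy h1 => ⟨hy, h1.2⟩
  have hU' : ∀ {w : Fˣ}, w ∉ enl h z → (Sm T H w ↔ Sm T H (z * w)) :=
    fun hw => hU _ (hout hw).1 (hout hw).2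
  have hzin : z ∈ enl h z := Or.inr (sqH h z)
  have hP' : ∀ x y v : Fˣ, Sm T (enl h z) x → Sm T (enl h z) y → x * y ∈ enl h z →
      Sm T (enl h z) v → Sm T (enl h z) (x * y * v) := by
    intro x y v hx hy hxy hv
    have hxyv : x * y * v ∉ enl h z :=
      fun h1 => hv.1 (((enl h z).mul_mem_cancel_left hxy).mp h1)
    refine hms hxyv ?_
    by_cases hc : x * y ∈ H
    · have h1 : Sm T H (z * x) := (hU' hx.1).mp (hsm hx)
      have h2 : Sm T H (z * x * y) := by
        apply L1a h h1 (hsm hy)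
        rw [mul_assoc]
        exact fun h3 => hzH ((H.mul_mem_cancel_right hc).mp h3)
      have h3 : Sm T H (z * x * y * v) := by
        apply L1a h h2 (hsm hv)
        intro h4
        apply (hout hv.1).2
        have : v * z = (z * x * y * v) * (x * y)⁻¹ := by
          apply Units.ext
          push_cast
          field_simp
        rw [this]
        exact H.mul_mem h4 (H.inv_mem hc)
      apply (hU' hxyv).mpr
      have : z * (x * y * v) = z * x * y * v := by group
      rw [this]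
      exact h3
    · exact L1a h (L1a h (hsm hx) (hsm hy) hc) (hsm hv) (hout hxyv).1
  refine ⟨z, enl h z, fun y => Iff.rfl, hR, hP', ?_, ?_⟩
  · intro a x c ha hx hc
    obtain ⟨-, c', hc', hcx⟩ := id hx
    have hcc : c' = c := Units.ext (by rw [hcx, hc])
    rw [hcc] at hc'
    have hac : a * c ∉ enl h z := mulT hR ha.1 hc'
    refine hms hac ?_
    by_cases hax : a * x ∈ H
    · have h1 : Sm T H (z * a) := (hU' ha.1).mp (hsm ha)
      have h2 : z * a * x ∉ H := by
        rw [mul_assoc]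
        exact fun h3 => hzH ((H.mul_mem_cancel_right hax).mp h3)
      have h3 := L1b h h1 (hsm hx) h2 hc
      apply (hU' hac).mpr
      rw [← mul_assoc]
      exact h3
    · exact L1b h (hsm ha) (hsm hx) hax hc
  · intro x a b hx ha hb h1
    have hna := neg_sm hR hP' ha
    have hnb := neg_sm hR hP' hb
    obtain ⟨t1, ht1, h2⟩ := fact h (hsm hx).1 (hsm ha).1 h1 (hsm hna) (hsm hnb)
    have hza : Sm T H (z * a) := (hU' ha.1).mp (hsm ha)
    have hzna : Sm T H (-(z * a)) := by
      have := (hU' hna.1).mp (hsm hna)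
      rwa [mul_neg] at this
    have hbn : z⁻¹ * (-b) ∉ enl h z := fun h3 =>
      hnb.1 (((enl h z).mul_mem_cancel_left ((enl h z).inv_mem hzin)).mp h3)
    have hznb : Sm T H (-(z⁻¹ * b)) := by
      have h3 : Sm T H (z⁻¹ * (-b)) := by
        apply (hU' hbn).mpr
        rw [mul_inv_cancel_left]
        exact hsm hnb
      rwa [mul_neg] at h3
    have h3 : (1 : F) + x = (z * a : Fˣ) * (z⁻¹ * b : Fˣ) := by
      rw [h1]
      push_cast
      field_simp
    obtain ⟨t2, ht2, h4⟩ := fact h (hsm hx).1 hza.1 h3 hzna hznb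
    apply hzH
    apply h.le
    rw [h2, mul_comm z a, mul_assoc] at h4
    have h5 := mul_left_cancel h4
    have h6 : z = t1 * t2⁻¹ := by rw [h5, mul_inv_cancel_right]
    rw [h6]
    exact T.mul_mem ht1 (T.inv_mem ht2)

end Pool.Agent.Y925.ET
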